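import Pool.Agent.H317.GR.StmA

/-!
# Algebraic numbers with at most two conjugates which are integral rational `p`-adic for all `p` (task RAT of helper317)
-/

set_option autoImplicit false

namespace Pool.Agent.H898.GR

open Pool.Agent.H317.GR Polynomial

/-- A rational number of `p`-adic norm at most one for all `p` is an integer. -/
theorem rat_int (r : ℚ) (h : ∀ (p : ℕ) [Fact p.Prime], ‖(r : ℚ_[p])‖ ≤ 1) : ∃ z : ℤ, r = z := by
  by_cases hd : r.den = 1
  · exact ⟨r.num, (Rat.den_eq_one_iff r).mp hd |>.symm⟩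
  · exfalso
    obtain ⟨p, hp, hpd⟩ := Nat.exists_prime_and_dvd hd
    have : Fact p.Prime := ⟨hp⟩
    have h1 : IsUnit (r.den : ℤ_[p]) := PadicInt.isUnit_den r (h p)
    rw [PadicInt.isUnit_iff] at h1
    have h2 : ‖((r.den : ℤ) : ℤ_[p])‖ < 1 := by
      rw [PadicInt.norm_int_lt_one_iff_dvd]
      exact_mod_cast hpd
    rw [Int.cast_natCast, h1] at h2
    exact lt_irrefl _ h2

theorem zmod3 : ∀ w : ZMod 3, w ^ 2 ≠ -1 := by decide

theorem alg_closure : Algebra.IsAlgebraic ℚ (AlgebraicClosure ℚ) := by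
  have h := @AlgebraicClosure.isAlgebraic ℚ _
  have e : (AlgebraicClosure.instAlgebra ℚ : Algebra ℚ (AlgebraicClosure ℚ)) = DivisionRing.toRatAlgebra :=
    Subsingleton.elim _ _
  exact e ▸ h

/-- An integer which is a square in all `ℚ_[p]` is a square. -/
theorem int_sq (E : ℤ) (hE : E ≠ 0) (h : ∀ (p : ℕ) [Fact p.Prime], ∃ y : ℚ_[p], y ^ 2 = (E : ℚ_[p])) :
    ∃ b : ℤ, E = b ^ 2 := by
  obtain ⟨a, b, ha0, hb0, hab, hsq⟩ := Nat.sq_mul_squarefree_of_pos (Int.natAbs_pos.mpr hE)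
  have hEab : E = ((b ^ 2 * a : ℕ) : ℤ) ∨ E = -((b ^ 2 * a : ℕ) : ℤ) := by
    rw [hab]
    exact Int.natAbs_eq E
  have ha : a = 1 := by
    by_contra hne
    obtain ⟨p, hp, c, hc⟩ := Nat.exists_prime_and_dvd hne
    have : Fact p.Prime := ⟨hp⟩
    have hpc : ¬ p ∣ c := by
      rintro ⟨d, hd⟩
      have h1 : p * p ∣ a := ⟨d, by rw [hc, hd]; ring⟩
      have h2 := hsq p h1
      exact hp.one_lt.ne' (Nat.isUnit_iff.mp h2)
    obtain ⟨y, hy⟩ := h p
    have hb : (b : ℚ_[p]) ≠ 0 := by exact_mod_cast hb0.ne'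
    have h3 : ‖(E : ℚ_[p])‖ = ‖(b : ℚ_[p])‖ ^ 2 * ((p : ℝ)⁻¹) := by
      have h4 : ‖(E : ℚ_[p])‖ = ‖((b ^ 2 * a : ℕ) : ℚ_[p])‖ := by
        rcases hEab with h5 | h5
        · rw [h5]; push_cast; rfl
        · rw [h5, Int.cast_neg, norm_neg]; push_cast; rfl
      rw [h4, hc]
      push_cast
      rw [norm_mul, norm_mul, norm_pow, Padic.norm_p]
      have h6 : ‖(c : ℚ_[p])‖ = 1 := by
        have h7 := (Padic.norm_natCast_eq_one_iff (p := p) (n := c)).mpr
          ((Nat.Prime.coprime_iff_not_dvd hp).mpr hpc)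
        exact h7
      rw [h6, mul_one]
    set z : ℚ_[p] := y / b with hz
    have h8 : ‖z‖ ^ 2 = (p : ℝ)⁻¹ := by
      rw [hz, norm_div, div_pow, ← norm_pow, hy, h3]
      have : ‖(b : ℚ_[p])‖ ≠ 0 := norm_ne_zero_iff.mpr hb
      field_simp
    have hz0 : z ≠ 0 := by
      intro h0
      rw [h0, norm_zero] at h8
      have : (p : ℝ)⁻¹ ≠ 0 := inv_ne_zero (by exact_mod_cast hp.ne_zero)
      exact this (by rw [← h8]; norm_num)
    rw [Padic.norm_eq_zpow_neg_valuation hz0, ← zpow_natCast, ← zpow_mul, ← zpow_neg_one] at h8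
    have hp1 : (1 : ℝ) < p := by exact_mod_cast hp.one_lt
    have h9 := (zpow_right_injective₀ (by linarith) hp1.ne') h8
    push_cast at h9
    omega
  subst ha
  rw [mul_one] at hEab
  rcases hEab with h1 | h1
  · exact ⟨b, by rw [h1]; push_cast; ring⟩
  · exfalso
    have : Fact (Nat.Prime 3) := ⟨by norm_num⟩
    obtain ⟨y, hy⟩ := h 3
    have hb : (b : ℚ_[3]) ≠ 0 := by exact_mod_cast hb0.ne'
    have h2 : (y / b) ^ 2 = -1 := by
      rw [div_pow, hy, h1]
      push_cast
      field_simp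
    have h3 : ‖y / b‖ ≤ 1 := by
      have h4 : ‖y / b‖ ^ 2 = 1 := by rw [← norm_pow, h2, norm_neg, norm_one]
      nlinarith [norm_nonneg (y / b)]
    obtain ⟨v, hv⟩ : ∃ v : ℤ_[3], (v : ℚ_[3]) = y / b := ⟨⟨y / b, h3⟩, rfl⟩
    have h5 : v ^ 2 = -1 := by
      apply PadicInt.ext
      rw [PadicInt.coe_pow, PadicInt.coe_neg, PadicInt.coe_one, hv]
      exact h2
    have h6 := congrArg PadicInt.toZMod h5
    rw [map_pow, map_neg, map_one] at h6
    exact zmod3 _ h6

/-- A rational number which is a square in all `ℚ_[p]` is a square. -/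
theorem rat_sq (D : ℚ) (h : ∀ (p : ℕ) [Fact p.Prime], ∃ y : ℚ_[p], y ^ 2 = (D : ℚ_[p])) :
    ∃ c : ℚ, D = c ^ 2 := by
  by_cases hD : D = 0
  · exact ⟨0, by rw [hD]; norm_num⟩
  have hden : (D.den : ℚ) ≠ 0 := by exact_mod_cast D.den_ne_zero
  have hE : ((D.num * D.den : ℤ) : ℚ) = D * D.den ^ 2 := by
    push_cast
    rw [← Rat.mul_den_eq_num D]
    ring
  obtain ⟨b, hb⟩ := int_sq (D.num * D.den) (by
    refine mul_ne_zero (Rat.num_ne_zero.mpr hD) ?_
    exact_mod_cast D.den_ne_zero) (by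
    intro p _
    obtain ⟨y, hy⟩ := h p
    refine ⟨y * D.den, ?_⟩
    have h1 : ((D.num * D.den : ℤ) : ℚ_[p]) = (((D.num * D.den : ℤ) : ℚ) : ℚ_[p]) := by push_cast; rfl
    rw [h1, hE, mul_pow, hy]
    push_cast
    rfl)
  refine ⟨b / D.den, ?_⟩
  rw [hb] at hE
  push_cast at hE
  field_simp
  linarith

theorem rat : S_RAT := by
  classical
  intro a b hab hj
  have hAlg : Algebra.IsAlgebraic ℚ (AlgebraicClosure ℚ) := alg_closure
  have hACl : IsAlgClosure ℚ (AlgebraicClosure ℚ) := ⟨inferInstance, hAlg⟩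
  have hNor : Normal ℚ (AlgebraicClosure ℚ) := IsAlgClosure.normal ℚ (AlgebraicClosure ℚ)
  have hint : IsIntegral ℚ a := Algebra.IsIntegral.isIntegral a
  -- embeddings
  have hemb : ∀ (p : ℕ) [Fact p.Prime], ∃ j : AlgebraicClosure ℚ →+* AlgebraicClosure ℚ_[p], True := by
    intro p _
    exact ⟨(IsAlgClosed.lift (R := ℚ) (S := AlgebraicClosure ℚ) (M := AlgebraicClosure ℚ_[p])).toRingHom, trivial⟩
  -- it suffices that `a` is rational
  have hfin : ∀ r : ℚ, a = algebraMap ℚ (AlgebraicClosure ℚ) r → ∃ z : ℤ, a = (z : AlgebraicClosure ℚ) := by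
    intro r hr
    obtain ⟨z, hz⟩ := rat_int r (by
      intro p _
      obtain ⟨j, -⟩ := hemb p
      obtain ⟨x, hx⟩ := hj p j
      have h1 : j a = algebraMap ℚ_[p] (AlgebraicClosure ℚ_[p]) (r : ℚ_[p]) := by
        rw [hr]
        have h2 : j (algebraMap ℚ (AlgebraicClosure ℚ) r) = (r : AlgebraicClosure ℚ_[p]) := by
          rw [eq_ratCast, map_ratCast]
        rw [h2, map_ratCast]
      rw [h1] at hx
      have h3 := (algebraMap ℚ_[p] (AlgebraicClosure ℚ_[p])).injective hx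
      rw [h3]
      exact x.2)
    exact ⟨z, by rw [hr, hz]; simp⟩
  set f := minpoly ℚ a with hf
  have hdeg : f.natDegree ≤ 2 := by
    have hirr : Irreducible f := minpoly.irreducible hint
    have hsep : f.Separable := hirr.separable
    have hspl : Splits (f.map (algebraMap ℚ (AlgebraicClosure ℚ))) := IsAlgClosed.splits _
    have h1 := card_rootSet_eq_natDegree hsep hspl
    rw [← h1]
    have h2 : f.rootSet (AlgebraicClosure ℚ) ⊆ (({a, b} : Finset (AlgebraicClosure ℚ)) : Set (AlgebraicClosure ℚ)) := by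
      intro x hx
      rw [mem_rootSet] at hx
      obtain ⟨σ, hσ⟩ := minpoly.exists_algEquiv_of_root (K := ℚ) (L := AlgebraicClosure ℚ)
        (Algebra.IsAlgebraic.isAlgebraic a) hx.2
      have h5 : σ.symm a = x := by rw [← hσ]; exact σ.symm_apply_apply x
      rcases hab σ.symm with h3 | h3
      · rw [h5] at h3; simp [h3]
      · rw [h5] at h3; simp [h3]
    have h3 : Fintype.card (f.rootSet (AlgebraicClosure ℚ)) ≤ Fintype.card ({a, b} : Finset (AlgebraicClosure ℚ)) := by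
      have := Set.card_le_card h2
      simpa using this
    refine h3.trans ?_
    rw [Fintype.card_coe]
    exact Finset.card_le_two
  have hpos : 0 < f.natDegree := minpoly.natDegree_pos hint
  rcases (by omega : f.natDegree = 1 ∨ f.natDegree = 2) with h1 | h1
  · rw [hf, minpoly.natDegree_eq_one_iff] at h1
    obtain ⟨r, hr⟩ := h1
    exact hfin r hr.symm
  · -- degree two
    have hmon : f.Monic := minpoly.monic hint
    have hroot : aeval a f = 0 := minpoly.aeval ℚ a
    rw [aeval_eq_sum_range, h1, Finset.sum_range_succ, Finset.sum_range_succ, Finset.sum_range_one] at hroot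
    have hlc : f.coeff 2 = 1 := by rw [← h1]; exact hmon.coeff_natDegree
    rw [hlc, one_smul, pow_zero, pow_one, Algebra.smul_def, Algebra.smul_def, mul_one] at hroot
    set s := f.coeff 1
    set q := f.coeff 0
    have hD : (2 * a + algebraMap ℚ (AlgebraicClosure ℚ) s) ^ 2 = algebraMap ℚ (AlgebraicClosure ℚ) (s ^ 2 - 4 * q) := by
      rw [map_sub, map_mul, map_pow, map_ofNat]
      linear_combination 4 * hroot
    obtain ⟨c, hc⟩ := rat_sq (s ^ 2 - 4 * q) (by
      intro p _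
      obtain ⟨j, -⟩ := hemb p
      obtain ⟨x, hx⟩ := hj p j
      refine ⟨2 * (x : ℚ_[p]) + (s : ℚ_[p]), ?_⟩
      apply (algebraMap ℚ_[p] (AlgebraicClosure ℚ_[p])).injective
      have h2 := congrArg j hD
      rw [map_pow, map_add, map_mul, map_ofNat, hx, eq_ratCast, eq_ratCast, map_ratCast, map_ratCast] at h2
      rw [map_pow, map_add, map_mul, map_ofNat, map_ratCast, map_ratCast]
      exact h2)
    rw [hc, map_pow] at hD
    have h3 : 2 * a + algebraMap ℚ (AlgebraicClosure ℚ) s = algebraMap ℚ (AlgebraicClosure ℚ) c ∨ 2 * a + algebraMap ℚ (AlgebraicClosure ℚ) s = -algebraMap ℚ (AlgebraicClosure ℚ) c :=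
      sq_eq_sq_iff_eq_or_eq_neg.mp hD
    rcases h3 with h3 | h3
    · refine hfin ((c - s) / 2) ?_
      rw [map_div₀, map_sub, map_ofNat]
      field_simp
      linear_combination h3
    · refine hfin ((-c - s) / 2) ?_
      rw [map_div₀, map_sub, map_neg, map_ofNat]
      field_simp
      linear_combination h3

end Pool.Agent.H898.GR
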